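import Mathlib
import Pool.Agent.X195.GI8

/-!
# No number of barycentric subdivisions suffices for the cross-index

Positive answer to Q1 of MP_172133_co for every nontrivial finite group `G` and every `r`.
Idea: a `G`-map from the face poset of `sd^r K` to `Q_1 G` gives a flat integer cocycle on it,
bounded by the order of a fixed `s ≠ 1`; it descends to `K` with a bound `2^(r+1)` times larger.  We
take for `K` the order complex of a poset in which the `d`-th power of a circle (on which every such
cocycle has nonzero total) is homotopic to a path of four steps, with `d` large.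
-/

set_option autoImplicit false

namespace Pool.Agent.Results.MP_172133_co.SlowSubdivision

open Pool.Agent.X195.GI

/-- For every nontrivial finite group `G` and every `r` there is a finite free `G`-simplicial
complex `K` with `ind K = 1` and `Xind F(sd^r K) = 2`; in particular
`ind K < Xind F(sd^r K)`. -/
theorem result (G : Type) [Group G] [Fintype G] [Nontrivial G] (r : ℕ) :
    ∃ K : GComplex G, K.IsFree ∧
      IsLeast {k : ℕ | K.HasTopMap (Q G k).Delta} 1 ∧
      IsLeast {k : ℕ | (GComplex.sd^[r] K).F.HasMap (Q G k)} 2 := by
  obtain ⟨K, h1, h2, h3, h4, h5⟩ := main_sd G r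
  refine ⟨K, h1, ⟨h2, fun k hk => ?_⟩, ⟨h4, fun k hk => ?_⟩⟩
  · by_contra hlt
    exact h3 k (not_le.mp hlt) hk
  · by_contra hlt
    exact h5 k (not_le.mp hlt) hk

end Pool.Agent.Results.MP_172133_co.SlowSubdivision
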